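import Mathlib

/-!
# Signed and unsigned sums over derangements of products of `1 / (x_j - x_{τ j})`

For distinct complex numbers `x_j` the sum over all permutations `τ` of
`e (sign τ) * ∏ j, 1 / (x_j - x_{τ j})` (with the convention `1 / 0 = 0`, so that only
derangements contribute) satisfies a recursion which only involves the `2`-cycles.
-/

namespace Pool.Agent.Q22.DS

open Equiv Equiv.Perm Finset

variable {α : Type} [Fintype α] [DecidableEq α]

/-- The weighted sum over permutations. -/
noncomputable def F (e : ℤˣ →* ℂˣ) (α : Type) [Fintype α] [DecidableEq α] (x : α → ℂ) : ℂ :=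
  ∑ σ : Perm α, ((e (sign σ) : ℂˣ) : ℂ) * ∏ j, (x j - x (σ j))⁻¹

lemma F_congr (e : ℤˣ →* ℂˣ) {α β : Type} [Fintype α] [DecidableEq α] [Fintype β]
    [DecidableEq β] (f : α ≃ β) (x : β → ℂ) : F e β x = F e α (fun a => x (f a)) := by
  unfold F
  refine (Fintype.sum_equiv f.permCongr _ _ ?_).symm
  intro σ
  congr 1
  · rw [Equiv.Perm.sign_permCongr]
  · refine Fintype.prod_equiv f _ _ ?_
    intro a
    simp [Equiv.permCongr_apply]

/-- Permutations with a fixed point `i` are the permutations of the complement of `i`. -/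
lemma sum_fixed (e : ℤˣ →* ℂˣ) (x : α → ℂ) (i : α) :
    ∑ σ : Perm α with σ i = i,
      ((e (sign σ) : ℂˣ) : ℂ) * ∏ j ∈ univ.erase i, (x j - x (σ j))⁻¹ =
    F e {j // j ≠ i} (fun j => x j) := by
  classical
  unfold F
  symm
  refine Finset.sum_bij (fun σ _ => Equiv.Perm.ofSubtype σ) ?_ ?_ ?_ ?_
  · intro σ _
    rw [Finset.mem_filter]
    exact ⟨mem_univ _, Equiv.Perm.ofSubtype_apply_of_not_mem _ (by simp)⟩
  · intro σ _ τ _ h
    exact Equiv.Perm.ofSubtype_injective h
  · intro σ hσ
    rw [Finset.mem_filter] at hσ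
    refine ⟨σ.subtypePerm (fun j => ?_), mem_univ _, ?_⟩
    · constructor
      · intro h1 h2
        exact h1 (by rw [h2, hσ.2])
      · intro h1 h2
        exact h1 (σ.injective (h2.trans hσ.2.symm))
    · refine Equiv.Perm.ofSubtype_subtypePerm _ ?_
      intro j hj h
      exact hj (by rw [h, hσ.2])
  · intro σ _
    congr 1
    · rw [Equiv.Perm.sign_ofSubtype]
    · rw [Finset.prod_subtype (univ.erase i) (p := fun j => j ≠ i) (by simp)
        (fun j => (x j - x (Equiv.Perm.ofSubtype σ j))⁻¹)]
      refine Finset.prod_congr rfl ?_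
      intro j _
      rw [Equiv.Perm.ofSubtype_apply_coe]

/-- The recursion. -/
lemma F_option (e : ℤˣ →* ℂˣ) {β : Type} [Fintype β] [DecidableEq β] (x : Option β → ℂ)
    (hx : Function.Injective x) :
    F e (Option β) x = - ((e (-1) : ℂˣ) : ℂ) * ∑ i : β, ((x (some i) - x none)⁻¹) ^ 2 *
      F e {j // j ≠ i} (fun j => x (some j)) := by
  classical
  have hterm : ∀ (τ : Perm β) (i : β),
      ∏ o : Option β, (x o - x ((decomposeOption.symm (some i, τ)) o))⁻¹ =
        (∏ j, (x (some j) - x (some (τ j)))⁻¹) *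
          ((x (some (τ.symm i)) - x none)⁻¹ - (x (some i) - x none)⁻¹) -
        (if τ i = i then ((x (some i) - x none)⁻¹) ^ 2 *
          ∏ j ∈ univ.erase i, (x (some j) - x (some (τ j)))⁻¹ else 0) := by
    intro τ i
    rw [Fintype.prod_option]
    have h0 : (decomposeOption.symm (some i, τ)) none = some i := by simp
    rw [h0]
    have h1 : ∀ j : β, j ≠ τ.symm i →
        (decomposeOption.symm (some i, τ)) (some j) = some (τ j) := by
      intro j hj
      rw [decomposeOption_symm_apply]
      simp only [Perm.coe_mul, Function.comp_apply, optionCongr_apply, Option.map_some]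
      refine swap_apply_of_ne_of_ne (by simp) ?_
      intro h
      apply hj
      rw [Option.some_inj] at h
      rw [← h]; simp
    have h2 : (decomposeOption.symm (some i, τ)) (some (τ.symm i)) = none := by
      rw [decomposeOption_symm_apply]
      simp
    rw [← Finset.mul_prod_erase univ _ (mem_univ (τ.symm i)), h2]
    rw [← Finset.mul_prod_erase univ (fun j => (x (some j) - x (some (τ j)))⁻¹)
      (mem_univ (τ.symm i))]
    have h3 : ∏ j ∈ univ.erase (τ.symm i),
        (x (some j) - x ((decomposeOption.symm (some i, τ)) (some j)))⁻¹ =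
        ∏ j ∈ univ.erase (τ.symm i), (x (some j) - x (some (τ j)))⁻¹ := by
      refine Finset.prod_congr rfl ?_
      intro j hj
      rw [h1 j (Finset.ne_of_mem_erase hj)]
    rw [h3]
    simp only [Equiv.apply_symm_apply]
    by_cases hfix : τ i = i
    · have hfix' : τ.symm i = i := by rw [Equiv.symm_apply_eq]; exact hfix.symm
      rw [if_pos hfix, hfix']
      have h4 : (x none - x (some i))⁻¹ = - (x (some i) - x none)⁻¹ := by
        rw [← inv_neg, neg_sub]
      rw [h4]
      ring
    · rw [if_neg hfix]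
      have hne : τ.symm i ≠ i := by
        intro h
        apply hfix
        rw [Equiv.symm_apply_eq] at h; exact h.symm
      have ha : x none - x (some i) ≠ 0 := sub_ne_zero.mpr fun h => by simpa using hx h
      have hb : x (some i) - x none ≠ 0 := sub_ne_zero.mpr fun h => by simpa using hx h
      have hc : x (some (τ.symm i)) - x none ≠ 0 := sub_ne_zero.mpr fun h => by simpa using hx h
      have hd : x (some (τ.symm i)) - x (some i) ≠ 0 :=
        sub_ne_zero.mpr fun h => hne (by simpa using hx h)
      have key : (x none - x (some i))⁻¹ * (x (some (τ.symm i)) - x none)⁻¹ =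
          (x (some (τ.symm i)) - x (some i))⁻¹ *
            ((x (some (τ.symm i)) - x none)⁻¹ - (x (some i) - x none)⁻¹) := by
        field_simp
        ring
      linear_combination (∏ j ∈ univ.erase (τ.symm i), (x (some j) - x (some (τ j)))⁻¹) * key
  unfold F
  rw [← Equiv.sum_comp decomposeOption.symm, Fintype.sum_prod_type, Fintype.sum_option]
  have hnone : ∑ τ : Perm β, ((e (sign (decomposeOption.symm (none, τ))) : ℂˣ) : ℂ) *
      ∏ o : Option β, (x o - x ((decomposeOption.symm (none, τ)) o))⁻¹ = 0 := by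
    refine Finset.sum_eq_zero ?_
    intro τ _
    rw [Fintype.prod_option]
    simp
  rw [hnone, zero_add]
  have hsign : ∀ (i : β) (τ : Perm β),
      ((e (sign (decomposeOption.symm (some i, τ))) : ℂˣ) : ℂ) =
        ((e (-1) : ℂˣ) : ℂ) * ((e (sign τ) : ℂˣ) : ℂ) := by
    intro i τ
    rw [decomposeOption_symm_apply, Perm.sign_mul, sign_swap (by simp), optionCongr_sign, map_mul,
      Units.val_mul]
  have h5 : ∑ i : β, ∑ τ : Perm β, ((e (sign (decomposeOption.symm (some i, τ))) : ℂˣ) : ℂ) *
      ∏ o : Option β, (x o - x ((decomposeOption.symm (some i, τ)) o))⁻¹ =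
      ((e (-1) : ℂˣ) : ℂ) * (∑ τ : Perm β, ((e (sign τ) : ℂˣ) : ℂ) *
          (∏ j, (x (some j) - x (some (τ j)))⁻¹) *
          ∑ i : β, ((x (some (τ.symm i)) - x none)⁻¹ - (x (some i) - x none)⁻¹)) -
      ((e (-1) : ℂˣ) : ℂ) * ∑ i : β, ∑ τ : Perm β, ((e (sign τ) : ℂˣ) : ℂ) *
        (if τ i = i then ((x (some i) - x none)⁻¹) ^ 2 *
          ∏ j ∈ univ.erase i, (x (some j) - x (some (τ j)))⁻¹ else 0) := by
    simp_rw [Finset.mul_sum]
    rw [Finset.sum_comm (s := (univ : Finset (Perm β))), ← Finset.sum_sub_distrib]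
    refine Finset.sum_congr rfl fun i _ => ?_
    rw [← Finset.sum_sub_distrib]
    refine Finset.sum_congr rfl fun τ _ => ?_
    rw [hterm, hsign]
    ring
  rw [h5]
  have h6 : ∀ τ : Perm β,
      ∑ i : β, ((x (some (τ.symm i)) - x none)⁻¹ - (x (some i) - x none)⁻¹) = 0 := by
    intro τ
    rw [Finset.sum_sub_distrib, sub_eq_zero]
    exact Equiv.sum_comp τ.symm fun i => (x (some i) - x none)⁻¹
  simp_rw [h6]
  simp only [mul_zero, Finset.sum_const_zero, zero_sub]
  rw [neg_mul]
  congr 2
  refine Finset.sum_congr rfl fun i _ => ?_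
  have h7 := sum_fixed e (fun j => x (some j)) i
  unfold F at h7
  rw [← h7, Finset.mul_sum, Finset.sum_filter]
  refine Finset.sum_congr rfl fun τ _ => ?_
  split_ifs
  · ring
  · ring

/-- The unsigned sum is `(-1) ^ ⌊n / 2⌋` times the signed sum. -/
theorem unsigned_eq_signed (n : ℕ) : ∀ (α : Type) [Fintype α] [DecidableEq α] (x : α → ℂ),
    Function.Injective x → Fintype.card α = n →
    ∑ σ : Perm α, ∏ j, (x j - x (σ j))⁻¹ =
      (-1) ^ (n / 2) * ∑ σ : Perm α, ((sign σ : ℤ) : ℂ) * ∏ j, (x j - x (σ j))⁻¹ := by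
  -- pass to the function `F`
  have hmap : ∃ e : ℤˣ →* ℂˣ, ∀ u : ℤˣ, ((e u : ℂˣ) : ℂ) = ((u : ℤ) : ℂ) := by
    refine ⟨Units.map (Int.castRingHom ℂ).toMonoidHom, fun u => by simp⟩
  obtain ⟨e, he⟩ := hmap
  suffices h : ∀ (n : ℕ) (α : Type) [Fintype α] [DecidableEq α] (x : α → ℂ),
      Function.Injective x → Fintype.card α = n → F 1 α x = (-1) ^ (n / 2) * F e α x by
    intro α _ _ x hx hn
    have := h n α x hx hn
    simpa [F, he] using this
  intro n
  induction n using Nat.strong_induction_on with
  | _ n ih =>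
    intro α _ _ x hx hn
    rcases n with _ | _ | n
    · have : IsEmpty α := Fintype.card_eq_zero_iff.mp hn
      simp [F]
    · have hu : Fintype.card α = 1 := by simpa using hn
      obtain ⟨a, ha⟩ := Fintype.card_eq_one_iff.mp hu
      have hz : ∀ e' : ℤˣ →* ℂˣ, F e' α x = 0 := by
        intro e'
        unfold F
        refine Finset.sum_eq_zero fun σ _ => ?_
        rw [Finset.prod_eq_zero (mem_univ a), mul_zero]
        rw [ha (σ a), sub_self, inv_zero]
      rw [hz, hz, mul_zero]
    · -- `α ≃ Option β`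
      have hcard : Fintype.card α = Fintype.card (Option (Fin (n + 1))) := by
        rw [hn, Fintype.card_option, Fintype.card_fin]
      let f : Option (Fin (n + 1)) ≃ α := (Fintype.equivOfCardEq hcard).symm
      rw [F_congr 1 f, F_congr e f]
      have hinj : Function.Injective fun a => x (f a) := hx.comp f.injective
      rw [F_option 1 _ hinj, F_option e _ hinj]
      have he1 : ((e (-1) : ℂˣ) : ℂ) = -1 := by rw [he]; simp
      have h11 : (((1 : ℤˣ →* ℂˣ) (-1) : ℂˣ) : ℂ) = 1 := by simp
      rw [he1, h11]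
      have hih : ∀ i : Fin (n + 1),
          F 1 {j // j ≠ i} (fun j => x (f (some (j : Fin (n + 1))))) =
            (-1) ^ (n / 2) * F e {j // j ≠ i} (fun j => x (f (some (j : Fin (n + 1))))) := by
        intro i
        refine ih n (by omega) {j // j ≠ i} _ ?_ ?_
        · intro a b hab
          have := hinj hab
          simpa [Subtype.ext_iff] using this
        · simp
      simp_rw [hih]
      have h2 : (n + 1 + 1) / 2 = n / 2 + 1 := by omega
      rw [h2, pow_succ, neg_neg, Finset.mul_sum, Finset.mul_sum, Finset.mul_sum]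
      refine Finset.sum_congr rfl fun i _ => ?_
      ring

end Pool.Agent.Q22.DS
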