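import Mathlib
import Pool.Agent.Q22.DS.Cauchy

/-!
# The determinant of the matrix with entries `1 / (1 - ζ ^ (j - k))` off the diagonal
-/

namespace Pool.Agent.Q22.DS

open Equiv Equiv.Perm Finset

variable {n : ℕ} {ζ : ℂ}

/-- The eigenvalues `∑_{r=1}^{n-1} ζ ^ (-r s) / (1 - ζ ^ r) = (n - 1) / 2 - s`. -/
lemma eigen (hn : 0 < n) (hζ : IsPrimitiveRoot ζ n) (s : ℕ) (hs : s < n) :
    ∑ r ∈ Finset.Ico 1 n, (ζ ^ (r * s))⁻¹ * (1 - ζ ^ r)⁻¹ = ((n : ℂ) - 1) / 2 - s := by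
  have hζ0 : ζ ≠ 0 := hζ.ne_zero hn.ne'
  have hne : ∀ r ∈ Finset.Ico 1 n, (1 : ℂ) - ζ ^ r ≠ 0 := by
    intro r hr h
    rw [Finset.mem_Ico] at hr
    exact hζ.pow_ne_one_of_pos_of_lt (by omega) hr.2 (sub_eq_zero.mp h).symm
  induction s with
  | zero =>
    simp only [mul_zero, pow_zero, inv_one, one_mul, Nat.cast_zero, sub_zero]
    -- reflect
    have hrefl : ∑ r ∈ Finset.Ico 1 n, (1 - ζ ^ r)⁻¹ =
        ∑ r ∈ Finset.Ico 1 n, (1 - ζ ^ (n - r))⁻¹ := by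
      refine Finset.sum_nbij' (fun r => n - r) (fun r => n - r) ?_ ?_ ?_ ?_ ?_
      · intro r hr; rw [Finset.mem_Ico] at hr ⊢; omega
      · intro r hr; rw [Finset.mem_Ico] at hr ⊢; omega
      · intro r hr; rw [Finset.mem_Ico] at hr; omega
      · intro r hr; rw [Finset.mem_Ico] at hr; omega
      · intro r hr
        rw [Finset.mem_Ico] at hr
        rw [show n - (n - r) = r by omega]
    have hsum : ∑ r ∈ Finset.Ico 1 n, ((1 - ζ ^ r)⁻¹ + (1 - ζ ^ (n - r))⁻¹) =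
        ∑ r ∈ Finset.Ico 1 n, (1 : ℂ) := by
      refine Finset.sum_congr rfl fun r hr => ?_
      have h1 := hne r hr
      rw [Finset.mem_Ico] at hr
      have h2 : ζ ^ (n - r) * ζ ^ r = 1 := by
        rw [← pow_add, Nat.sub_add_cancel (by omega), hζ.pow_eq_one]
      have h3 : (1 : ℂ) - ζ ^ (n - r) ≠ 0 := by
        apply hne
        rw [Finset.mem_Ico]; omega
      field_simp
      linear_combination -h2
    rw [Finset.sum_add_distrib, ← hrefl] at hsum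
    simp only [Finset.sum_const, Nat.card_Ico, nsmul_eq_mul, mul_one] at hsum
    rw [Nat.cast_sub (by omega)] at hsum
    push_cast at hsum
    linear_combination hsum / 2
  | succ s ih =>
    have ih' := ih (by omega)
    have hdiff : ∑ r ∈ Finset.Ico 1 n, (ζ ^ (r * (s + 1)))⁻¹ * (1 - ζ ^ r)⁻¹ -
        ∑ r ∈ Finset.Ico 1 n, (ζ ^ (r * s))⁻¹ * (1 - ζ ^ r)⁻¹ =
        ∑ r ∈ Finset.Ico 1 n, ((ζ ^ (s + 1))⁻¹) ^ r := by
      rw [← Finset.sum_sub_distrib]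
      refine Finset.sum_congr rfl fun r hr => ?_
      have h1 := hne r hr
      have h2 : ζ ^ (r * s) ≠ 0 := pow_ne_zero _ hζ0
      have h3 : ζ ^ r ≠ 0 := pow_ne_zero _ hζ0
      have h4 : (ζ ^ (s + 1))⁻¹ ^ r = (ζ ^ (r * s))⁻¹ * (ζ ^ r)⁻¹ := by
        rw [inv_pow, ← pow_mul, ← mul_inv, ← pow_add]
        congr 2
        ring
      rw [h4, show r * (s + 1) = r * s + r by ring, pow_add, mul_inv]
      field_simp
    have hgeom : ∑ r ∈ Finset.Ico 1 n, ((ζ ^ (s + 1))⁻¹) ^ r = -1 := by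
      have hq : (ζ ^ (s + 1))⁻¹ ≠ 1 := by
        intro h
        rw [inv_eq_one] at h
        exact hζ.pow_ne_one_of_pos_of_lt (by omega) hs h
      have h1 : ∑ r ∈ Finset.range n, ((ζ ^ (s + 1))⁻¹) ^ r = 0 := by
        have h2 := geom_sum_eq hq n
        rw [h2]
        rw [inv_pow, ← pow_mul, mul_comm, pow_mul, hζ.pow_eq_one, one_pow, inv_one, sub_self,
          zero_div]
      rw [Finset.range_eq_Ico, Finset.sum_eq_sum_Ico_succ_bot hn] at h1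
      simp only [pow_zero, zero_add] at h1
      linear_combination h1
    push_cast
    linear_combination hdiff + hgeom + ih'

/-- The matrix with zero diagonal and entries `1 / (1 - ζ ^ (j - k))` off the diagonal. -/
noncomputable def C (n : ℕ) (ζ : ℂ) : Matrix (Fin n) (Fin n) ℂ :=
  fun j k => (1 - ζ ^ ((j : ℤ) - (k : ℤ)))⁻¹

/-- The matrix `(ζ ^ (j k))`. -/
noncomputable def V (n : ℕ) (ζ : ℂ) : Matrix (Fin n) (Fin n) ℂ :=
  fun j k => ζ ^ ((j : ℕ) * (k : ℕ))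

lemma row_sum (hn : 0 < n) (hζ : IsPrimitiveRoot ζ n) (j s : Fin n) :
    ∑ k : Fin n, (1 - ζ ^ ((j : ℤ) - (k : ℤ)))⁻¹ * ζ ^ ((k : ℕ) * (s : ℕ)) =
      ζ ^ ((j : ℕ) * (s : ℕ)) * (((n : ℂ) - 1) / 2 - (s : ℕ)) := by
  have hζ0 : ζ ≠ 0 := hζ.ne_zero hn.ne'
  rw [← eigen hn hζ s s.2]
  -- the summand as a function of the residue of `j - k`
  have h1 : ∀ k : Fin n, (1 - ζ ^ ((j : ℤ) - (k : ℤ)))⁻¹ * ζ ^ ((k : ℕ) * (s : ℕ)) =
      ζ ^ ((j : ℕ) * (s : ℕ)) *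
        ((ζ ^ ((((j : ℕ) + (n - (k : ℕ))) % n) * (s : ℕ)))⁻¹ *
          (1 - ζ ^ (((j : ℕ) + (n - (k : ℕ))) % n))⁻¹) := by
    intro k
    have hk : (k : ℕ) < n := k.2
    have hmod : ζ ^ (((j : ℕ) + (n - (k : ℕ))) % n) = ζ ^ ((j : ℤ) - (k : ℤ)) := by
      have h2 : ζ ^ (((j : ℕ) + (n - (k : ℕ))) % n) = ζ ^ ((j : ℕ) + (n - (k : ℕ))) := by
        conv_rhs => rw [← Nat.mod_add_div ((j : ℕ) + (n - (k : ℕ))) n]
        rw [pow_add, pow_mul, hζ.pow_eq_one, one_pow, mul_one]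
      rw [h2, ← zpow_natCast]
      push_cast [hk.le]
      rw [show (j : ℤ) + ((n : ℤ) - (k : ℤ)) = ((j : ℤ) - (k : ℤ)) + n by ring,
        zpow_add₀ hζ0, zpow_natCast, hζ.pow_eq_one, mul_one]
    rw [pow_mul ζ (((j : ℕ) + (n - (k : ℕ))) % n), hmod]
    have h3 : (ζ ^ ((j : ℤ) - (k : ℤ))) ^ (s : ℕ) * ζ ^ ((k : ℕ) * (s : ℕ)) =
        ζ ^ ((j : ℕ) * (s : ℕ)) := by
      rw [← zpow_natCast, ← zpow_mul, ← zpow_natCast, ← zpow_add₀ hζ0, ← zpow_natCast]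
      congr 1
      push_cast
      ring
    have h4 : (ζ ^ ((j : ℤ) - (k : ℤ))) ^ (s : ℕ) ≠ 0 := pow_ne_zero _ (zpow_ne_zero _ hζ0)
    rw [← h3]
    field_simp
  simp_rw [h1]
  rw [← Finset.mul_sum]
  congr 1
  -- reindex
  have h5 : ∑ k : Fin n, ((ζ ^ ((((j : ℕ) + (n - (k : ℕ))) % n) * (s : ℕ)))⁻¹ *
          (1 - ζ ^ (((j : ℕ) + (n - (k : ℕ))) % n))⁻¹) =
      ∑ r ∈ Finset.range n, (ζ ^ (r * (s : ℕ)))⁻¹ * (1 - ζ ^ r)⁻¹ := by
    refine Finset.sum_bij (fun (k : Fin n) _ => ((j : ℕ) + (n - (k : ℕ))) % n) ?_ ?_ ?_ ?_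
    · intro k _
      exact Finset.mem_range.mpr (Nat.mod_lt _ hn)
    · intro k _ k' _ h
      have hk : (k : ℕ) < n := k.2
      have hk' : (k' : ℕ) < n := k'.2
      have h6 : ((j : ℕ) + (n - (k : ℕ))) ≡ ((j : ℕ) + (n - (k' : ℕ))) [MOD n] := h
      have h7 := Nat.ModEq.add_left_cancel' _ h6
      have h8 : (n - (k : ℕ)) + k ≡ (n - (k' : ℕ)) + k [MOD n] := Nat.ModEq.add_right _ h7
      have h9 : (n - (k' : ℕ)) + k' ≡ (n - (k' : ℕ)) + k [MOD n] := by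
        rw [Nat.sub_add_cancel hk'.le]
        rw [Nat.sub_add_cancel hk.le] at h8
        exact h8
      have h10 := Nat.ModEq.add_left_cancel' _ h9
      exact Fin.ext (Nat.ModEq.eq_of_lt_of_lt h10 hk' hk).symm
    · intro r hr
      rw [Finset.mem_range] at hr
      have hj : (j : ℕ) < n := j.2
      refine ⟨⟨((j : ℕ) + (n - r)) % n, Nat.mod_lt _ hn⟩, mem_univ _, ?_⟩
      simp only
      by_cases hc : (j : ℕ) + (n - r) < n
      · rw [Nat.mod_eq_of_lt hc]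
        rw [show (j : ℕ) + (n - (j + (n - r))) = r by omega]
        exact Nat.mod_eq_of_lt hr
      · rw [show (j : ℕ) + (n - r) = (j - r) + n by omega, Nat.add_mod_right,
          Nat.mod_eq_of_lt (show (j : ℕ) - r < n by omega)]
        rw [show (j : ℕ) + (n - (j - r)) = r + n by omega, Nat.add_mod_right]
        exact Nat.mod_eq_of_lt hr
    · intro k _; rfl
  rw [h5, Finset.range_eq_Ico, Finset.sum_eq_sum_Ico_succ_bot hn]
  simp

lemma C_mul_V (hn : 0 < n) (hζ : IsPrimitiveRoot ζ n) :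
    C n ζ * V n ζ = V n ζ * Matrix.diagonal fun s : Fin n => ((n : ℂ) - 1) / 2 - (s : ℕ) := by
  ext j s
  rw [Matrix.mul_apply, Matrix.mul_diagonal]
  exact row_sum hn hζ j s

lemma det_V_ne_zero (hζ : IsPrimitiveRoot ζ n) : (V n ζ).det ≠ 0 := by
  have h : V n ζ = Matrix.vandermonde fun j : Fin n => ζ ^ (j : ℕ) := by
    ext j k
    simp [V, Matrix.vandermonde, pow_mul]
  rw [h, Matrix.det_vandermonde_ne_zero_iff]
  intro a b hab
  exact Fin.ext (hζ.pow_inj a.2 b.2 hab)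

lemma det_C (hn : 0 < n) (hζ : IsPrimitiveRoot ζ n) :
    (C n ζ).det = ∏ s : Fin n, (((n : ℂ) - 1) / 2 - (s : ℕ)) := by
  have h := congrArg Matrix.det (C_mul_V hn hζ)
  rw [Matrix.det_mul, Matrix.det_mul, Matrix.det_diagonal, mul_comm] at h
  exact mul_left_cancel₀ (det_V_ne_zero hζ) h

end Pool.Agent.Q22.DS
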